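import Pool.Agent.J6H50.RF.Stm

/-!
# RF-16: the additional axioms are decidable in polynomial time
-/

set_option autoImplicit false

namespace Pool.Agent.J6H73.RF16

open Pool.Agent.NPC
open Pool.Agent.J6H50.RF

/-! ### A recogniser for inductively defined sets of trees -/

section gen
variable (ok : T → Bool) (ch : T → List T)

/-- trees all of whose descendants pass the local test -/
inductive VT : T → Prop
  | mk (t : T) (h1 : ok t = true) (h2 : ∀ c ∈ ch t, VT c) : VT t

variable {ok ch}

theorem vt_iff {t : T} : VT ok ch t ↔ ok t = true ∧ ∀ c ∈ ch t, VT ok ch c :=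
  ⟨fun h => by cases h with | mk _ h1 h2 => exact ⟨h1, h2⟩, fun h => VT.mk t h.1 h.2⟩

variable (ok ch)

/-- One round of the recogniser. -/
def vStep (s : Bool × List T) : Bool × List T := (s.1 && s.2.all ok, s.2.flatMap ch)

/-- The recogniser. -/
def validT (t : T) : Bool := ((vStep ok ch)^[sz t + 2] (true, [t])).1

variable {ok ch}

theorem sz_flatMap (hsz : ∀ t, sz (ch t) ≤ sz t) (l : List T) :
    sz (l.flatMap ch) + l.length ≤ sz l := by
  induction l with
  | nil => simp
  | cons a l ih =>
    rw [List.flatMap_cons, sz_list_cons, List.length_cons]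
    have h1 := sz_append (ch a) (l.flatMap ch)
    have h2 := hsz a
    omega

theorem vStep_cur (hsz : ∀ t, sz (ch t) ≤ sz t) (s : Bool × List T) (n : ℕ) :
    ((vStep ok ch)^[n] s).2 = [] ∨ sz ((vStep ok ch)^[n] s).2 + n ≤ sz s.2 := by
  induction n with
  | zero => exact Or.inr (by simp)
  | succ n ih =>
    rw [Function.iterate_succ_apply']
    have h1 := sz_flatMap hsz ((vStep ok ch)^[n] s).2
    by_cases h2 : ((vStep ok ch)^[n] s).2 = []
    · left
      show ((vStep ok ch)^[n] s).2.flatMap ch = []
      rw [h2]
      rfl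
    · rcases ih with ih | ih
      · exact absurd ih h2
      · right
        have h3 : 0 < ((vStep ok ch)^[n] s).2.length := List.length_pos_iff.2 h2
        show sz (((vStep ok ch)^[n] s).2.flatMap ch) + (n + 1) ≤ sz s.2
        omega

theorem vStep_inv (s : Bool × List T) (n : ℕ) :
    (((vStep ok ch)^[n] s).1 = true ∧ ∀ t ∈ ((vStep ok ch)^[n] s).2, VT ok ch t) ↔
      (s.1 = true ∧ ∀ t ∈ s.2, VT ok ch t) := by
  induction n with
  | zero => rfl
  | succ n ih =>
    rw [Function.iterate_succ_apply', ← ih]
    generalize (vStep ok ch)^[n] s = u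
    show ((u.1 && u.2.all ok) = true ∧ ∀ t ∈ u.2.flatMap ch, VT ok ch t) ↔ _
    rw [Bool.and_eq_true, List.all_eq_true, and_assoc]
    refine and_congr_right fun _ => ?_
    constructor
    · rintro ⟨h1, h2⟩ t ht
      exact VT.mk t (h1 t ht) fun c hc => h2 c (List.mem_flatMap.2 ⟨t, ht, hc⟩)
    · intro h
      refine ⟨fun t ht => (vt_iff.1 (h t ht)).1, fun c hc => ?_⟩
      rw [List.mem_flatMap] at hc
      obtain ⟨t, ht, hc⟩ := hc
      exact (vt_iff.1 (h t ht)).2 c hc

theorem validT_iff (hsz : ∀ t, sz (ch t) ≤ sz t) {t : T} :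
    validT ok ch t = true ↔ VT ok ch t := by
  have h1 := vStep_inv (ok := ok) (ch := ch) (true, [t]) (sz t + 2)
  have h2 : ((vStep ok ch)^[sz t + 2] (true, [t])).2 = [] := by
    rcases vStep_cur (ok := ok) hsz (true, [t]) (sz t + 2) with h | h
    · exact h
    · have h3 := sz_pos ((vStep ok ch)^[sz t + 2] (true, [t])).2
      have h4 : sz [t] = sz t + 2 := by simp
      simp only at h
      omega
  rw [h2] at h1
  simpa [validT] using h1

theorem poly_bitsT : Poly (fun t : T => bits t) := by
  have h1 : PC (bits : T → List Bool) (fun x : List Bool => x) (fun a => bits a) :=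
    (Poly.id : Poly (fun t : T => t))
  exact PC.comp (g := fun x : List Bool => x) (f := fun a : T => bits a) PC.rawIn h1

theorem poly_validT (hsz : ∀ t, sz (ch t) ≤ sz t) (hok : Poly ok) (hch : Poly ch) :
    Poly (validT ok ch) := by
  have h1 : Poly (fun t : T => (vStep ok ch)^[(true :: true :: bits t).length] (true, [t])) := by
    refine Poly.iterLen (l := fun t : T => true :: true :: bits t)
      (s := fun t => ((true, [t]) : Bool × List T)) (F := fun _ s => vStep ok ch s)
      (Poly.cons (NPC.Poly.const _) (Poly.cons (NPC.Poly.const _) poly_bitsT)) ?_ ?_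
      (Polynomial.X + Polynomial.C 8) ?_
    · exact Poly.pair (NPC.Poly.const true) (Poly.cons Poly.id (NPC.Poly.const []))
    · unfold vStep
      refine Poly.pair (Poly.and (Poly.fst (Poly.snd Poly.id)) ?_) ?_
      · exact Poly.all (p := fun _ t => ok t) (Poly.snd (Poly.snd Poly.id))
          (hok.comp (Poly.snd Poly.id))
      · exact Poly.flatMap (F := fun _ t => ch t) (Poly.snd (Poly.snd Poly.id))
          (hch.comp (Poly.snd Poly.id))
    · intro t k _
      simp only [Polynomial.eval_add, Polynomial.eval_C, Polynomial.eval_X]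
      have h2 := sz_bool_le ((vStep ok ch)^[k] (true, [t])).1
      have h3 : sz ((vStep ok ch)^[k] (true, [t])).2 ≤ sz t + 2 := by
        rcases vStep_cur (ok := ok) hsz (true, [t]) k with h | h
        · rw [h]
          simp
        · have h4 : sz [t] = sz t + 2 := by simp
          simp only at h
          omega
      have h4 : sz ((vStep ok ch)^[k] (true, [t])) = sz ((vStep ok ch)^[k] (true, [t])).1 +
        sz ((vStep ok ch)^[k] (true, [t])).2 + 1 := sz_pair _ _
      show sz ((vStep ok ch)^[k] (true, [t])) ≤ _
      omega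
  refine (Poly.fst h1).congr fun t => ?_
  unfold validT
  rw [List.length_cons, List.length_cons, bits_length]

end gen

open Classical in
/-- decoding by a test -/
noncomputable def decV (α : Type) [TEnc α] (t : T) : Option α :=
  if h : ∃ a : α, toT a = t then some h.choose else none

theorem decV_toT {α : Type} [TEnc α] (a : α) : decV α (toT a) = some a := by
  unfold decV
  rw [dif_pos ⟨a, rfl⟩]
  congr 1
  exact TEnc.inj (Exists.choose_spec (⟨a, rfl⟩ : ∃ b : α, toT b = toT a))

theorem toT_decV {α : Type} [TEnc α] (t : T) (a : α) (h : decV α t = some a) : toT a = t := by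
  unfold decV at h
  split_ifs at h with h1
  rw [← Option.some.inj h]
  exact h1.choose_spec

theorem poly_decV {α : Type} [TEnc α] {v : T → Bool} (hv : ∀ t, v t = true ↔ ∃ a : α, toT a = t)
    (hp : Poly v) : Poly (decV α) := by
  have h1 : Poly (fun t : T => bif v t then T.node t T.nil else T.nil) :=
    Poly.cond hp (Poly.node Poly.id (NPC.Poly.const _)) (NPC.Poly.const _)
  refine Poly.of_toT (h1.congr fun t => ?_)
  cases h : v t with
  | true =>
    obtain ⟨a, rfl⟩ := (hv t).1 h
    rw [decV_toT]
    rfl
  | false =>
    have h2 : decV α t = none := by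
      unfold decV
      rw [dif_neg]
      rw [← hv, h]
      simp
    rw [h2]
    rfl

/-- a type whose codes are recognised in polynomial time is decodable -/
@[instance_reducible] noncomputable def mkDec {α : Type} [TEnc α] {v : T → Bool}
    (hv : ∀ t, v t = true ↔ ∃ a : α, toT a = t) (hp : Poly v) : TDec α where
  dec := decV α
  dec_toT := decV_toT
  toT_dec := toT_decV
  poly_dec := poly_decV hv hp

/-! ### Terms -/

/-- the code of a number -/
def tag (n : ℕ) : T := toT n

theorem tag_inj {i j : ℕ} : tag i = tag j ↔ i = j := TEnc.inj.eq_iff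

theorem tag_zero : tag 0 = T.nil := by
  show toT (0 : ℕ).bits = T.nil
  rw [Nat.zero_bits]
  rfl

theorem tag_ne {i : ℕ} (hi : i ≠ 0) : tag i ≠ T.nil := by
  rw [← tag_zero, Ne, tag_inj]
  exact hi

/-- the local test for codes of terms -/
def okM (t : T) : Bool :=
  decide (t ≠ T.nil) && (
    ((decide (t.hd = tag 0) && (TDec.dec t.tl : Option ℕ).isSome) ||
    (decide (t.hd = tag 1) && decide (t.tl = T.nil))) ||
    (decide (t.hd = tag 2 ∨ t.hd = tag 6 ∨ t.hd = tag 7) ||
    (decide (t.hd = tag 3 ∨ t.hd = tag 4 ∨ t.hd = tag 5) && decide (t.tl ≠ T.nil))))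

/-- the codes of the arguments -/
def chM (t : T) : List T :=
  if t.hd = tag 2 ∨ t.hd = tag 6 ∨ t.hd = tag 7 then [t.tl]
  else if t.hd = tag 3 ∨ t.hd = tag 4 ∨ t.hd = tag 5 then [t.tl.hd, t.tl.tl] else []

theorem poly_hd_eq (n : ℕ) : Poly (fun t : T => decide (t.hd = tag n)) :=
  Poly.decide_eq (Poly.hd Poly.id) (NPC.Poly.const _)

theorem poly_okM : Poly okM := by
  unfold okM
  refine Poly.and (Poly.decide_not (Poly.decide_eq Poly.id (NPC.Poly.const _))) ?_
  refine Poly.or (Poly.or ?_ ?_) (Poly.or ?_ ?_)
  · exact Poly.and (poly_hd_eq 0) (Poly.isSome (TDec.poly_dec.comp (Poly.tl Poly.id)))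
  · exact Poly.and (poly_hd_eq 1) (Poly.decide_eq (Poly.tl Poly.id) (NPC.Poly.const _))
  · exact Poly.decide_or (poly_hd_eq 2) (Poly.decide_or (poly_hd_eq 6) (poly_hd_eq 7))
  · exact Poly.and (Poly.decide_or (poly_hd_eq 3) (Poly.decide_or (poly_hd_eq 4) (poly_hd_eq 5)))
      (Poly.decide_not (Poly.decide_eq (Poly.tl Poly.id) (NPC.Poly.const _)))

theorem poly_chM : Poly chM := by
  unfold chM
  refine Poly.ite (Poly.decide_or (poly_hd_eq 2) (Poly.decide_or (poly_hd_eq 6) (poly_hd_eq 7)))
    (Poly.cons (Poly.tl Poly.id) (NPC.Poly.const [])) ?_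
  exact Poly.ite (Poly.decide_or (poly_hd_eq 3) (Poly.decide_or (poly_hd_eq 4) (poly_hd_eq 5)))
    (Poly.cons (Poly.hd (Poly.tl Poly.id)) (Poly.cons (Poly.tl (Poly.tl Poly.id)) (NPC.Poly.const [])))
    (NPC.Poly.const [])

theorem size_three {t : T} (h : t ≠ T.nil) : 3 ≤ t.size := by
  cases t with
  | nil => exact absurd rfl h
  | node l r =>
    have h1 := T.size_pos l
    have h2 := T.size_pos r
    simp only [T.size_node]
    omega

theorem size_hd_tl {t : T} (h : t.hd ≠ T.nil) : 4 + t.tl.size ≤ t.size := by
  cases t with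
  | nil => exact absurd rfl h
  | node l r =>
    have h1 := size_three (t := l) h
    simp only [T.size_node, T.tl_node]
    omega

theorem size_pair_le (t : T) : t.hd.size + t.tl.size ≤ t.size + 1 := by
  cases t with
  | nil => simp
  | node l r =>
    simp only [T.size_node, T.tl_node, T.hd_node]
    omega

theorem sz_chM (t : T) : sz (chM t) ≤ sz t := by
  unfold chM
  split_ifs with h1 h2
  · have h3 : t.hd ≠ T.nil := by
      rcases h1 with h | h | h <;> rw [h] <;> exact tag_ne (by norm_num)
    have h4 := size_hd_tl h3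
    simp only [sz_list_cons, sz_list_nil]
    show t.tl.size + 1 + 1 ≤ t.size
    omega
  · have h3 : t.hd ≠ T.nil := by
      rcases h2 with h | h | h <;> rw [h] <;> exact tag_ne (by norm_num)
    have h4 := size_hd_tl h3
    have h5 := size_pair_le t.tl
    simp only [sz_list_cons, sz_list_nil]
    show t.tl.hd.size + (t.tl.tl.size + 1 + 1) + 1 ≤ t.size
    omega
  · exact sz_pos t

theorem vt_tm {t : T} : VT okM chM t ↔ ∃ a : Tm, toT a = t := by
  constructor
  · intro h
    induction h with
    | mk t h1 h2 ih =>
      cases t with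
      | nil => simp [okM] at h1
      | node l r =>
        by_cases h0 : l = tag 0
        · subst h0
          simp only [okM, T.hd_node, T.tl_node, tag_inj] at h1
          norm_num at h1
          have h1' := h1.2
          rw [Option.isSome_iff_exists] at h1'
          obtain ⟨i, hi⟩ := h1'
          refine ⟨.var i, ?_⟩
          rw [← TDec.toT_dec _ _ hi]
          rfl
        by_cases h0 : l = tag 1
        · subst h0
          simp only [okM, T.hd_node, T.tl_node, tag_inj] at h1
          norm_num at h1
          have h1' : r = T.nil := by simpa using h1.2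
          subst h1'
          exact ⟨.zero, rfl⟩
        by_cases h0 : l = tag 2
        · subst h0
          obtain ⟨s, hs⟩ := ih r (by simp [chM])
          exact ⟨.suc s, by rw [← hs]; rfl⟩
        by_cases h0 : l = tag 6
        · subst h0
          obtain ⟨s, hs⟩ := ih r (by simp [chM])
          exact ⟨.len s, by rw [← hs]; rfl⟩
        by_cases h0 : l = tag 7
        · subst h0
          obtain ⟨s, hs⟩ := ih r (by simp [chM])
          exact ⟨.half s, by rw [← hs]; rfl⟩
        have hr : r ≠ T.nil := by
          rintro rfl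
          simp_all [okM]
        obtain ⟨a, b, rfl⟩ : ∃ a b, r = T.node a b := by
          cases r with
          | nil => exact absurd rfl hr
          | node a b => exact ⟨a, b, rfl⟩
        by_cases h0 : l = tag 3
        · subst h0
          obtain ⟨s, hs⟩ := ih a (by simp [chM, tag_inj])
          obtain ⟨s', hs'⟩ := ih b (by simp [chM, tag_inj])
          exact ⟨.add s s', by rw [← hs, ← hs']; rfl⟩
        by_cases h0 : l = tag 4
        · subst h0
          obtain ⟨s, hs⟩ := ih a (by simp [chM, tag_inj])
          obtain ⟨s', hs'⟩ := ih b (by simp [chM, tag_inj])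
          exact ⟨.mul s s', by rw [← hs, ← hs']; rfl⟩
        by_cases h0 : l = tag 5
        · subst h0
          obtain ⟨s, hs⟩ := ih a (by simp [chM, tag_inj])
          obtain ⟨s', hs'⟩ := ih b (by simp [chM, tag_inj])
          exact ⟨.smash s s', by rw [← hs, ← hs']; rfl⟩
        simp_all [okM]
  · rintro ⟨a, rfl⟩
    have key : ∀ (n : ℕ) (r : T), chM (T.node (tag n) r) =
        if n = 2 ∨ n = 6 ∨ n = 7 then [r] else if n = 3 ∨ n = 4 ∨ n = 5 then [r.hd, r.tl] else [] := by
      intro n r
      simp only [chM, T.hd_node, T.tl_node, tag_inj]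
    induction a with
    | var i =>
      show VT okM chM (T.node (tag 0) (toT i))
      refine VT.mk _ ?_ ?_
      · simp [okM, TDec.dec_toT]
      · intro c hc
        rw [key] at hc
        norm_num at hc
    | zero =>
      show VT okM chM (T.node (tag 1) T.nil)
      refine VT.mk _ ?_ ?_
      · simp [okM]
      · intro c hc
        rw [key] at hc
        norm_num at hc
    | suc s ih =>
      show VT okM chM (T.node (tag 2) (toT s))
      refine VT.mk _ ?_ ?_
      · simp [okM]
      · intro c hc
        rw [key] at hc
        norm_num at hc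
        rw [hc]
        exact ih
    | add s s' ih ih' =>
      show VT okM chM (T.node (tag 3) (T.node (toT s) (toT s')))
      refine VT.mk _ ?_ ?_
      · simp [okM]
      · intro c hc
        rw [key] at hc
        norm_num at hc
        rcases hc with rfl | rfl
        · exact ih
        · exact ih'
    | mul s s' ih ih' =>
      show VT okM chM (T.node (tag 4) (T.node (toT s) (toT s')))
      refine VT.mk _ ?_ ?_
      · simp [okM]
      · intro c hc
        rw [key] at hc
        norm_num at hc
        rcases hc with rfl | rfl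
        · exact ih
        · exact ih'
    | smash s s' ih ih' =>
      show VT okM chM (T.node (tag 5) (T.node (toT s) (toT s')))
      refine VT.mk _ ?_ ?_
      · simp [okM]
      · intro c hc
        rw [key] at hc
        norm_num at hc
        rcases hc with rfl | rfl
        · exact ih
        · exact ih'
    | len s ih =>
      show VT okM chM (T.node (tag 6) (toT s))
      refine VT.mk _ ?_ ?_
      · simp [okM]
      · intro c hc
        rw [key] at hc
        norm_num at hc
        rw [hc]
        exact ih
    | half s ih =>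
      show VT okM chM (T.node (tag 7) (toT s))
      refine VT.mk _ ?_ ?_
      · simp [okM]
      · intro c hc
        rw [key] at hc
        norm_num at hc
        rw [hc]
        exact ih

noncomputable instance : TDec Tm :=
  mkDec (v := validT okM chM) (fun _ => (validT_iff sz_chM).trans vt_tm)
    (poly_validT sz_chM poly_okM poly_chM)

/-! ### Formulas -/

/-- the local test for codes of formulas -/
noncomputable def okF (t : T) : Bool :=
  decide (t ≠ T.nil) && (
    ((decide (t.hd = tag 0) && decide (t.tl = T.nil)) ||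
    (decide (t.hd = tag 1 ∨ t.hd = tag 2) && (decide (t.tl ≠ T.nil) &&
      ((TDec.dec t.tl.hd : Option Tm).isSome && (TDec.dec t.tl.tl : Option Tm).isSome)))) ||
    ((decide (t.hd = tag 3) && decide (t.tl ≠ T.nil)) ||
    (decide (t.hd = tag 4) && (decide (t.tl ≠ T.nil) && (TDec.dec t.tl.hd : Option ℕ).isSome))))

/-- the codes of the direct subformulas -/
def chF (t : T) : List T :=
  if t.hd = tag 3 then [t.tl.hd, t.tl.tl] else if t.hd = tag 4 then [t.tl.tl] else []

theorem poly_tl_ne : Poly (fun t : T => decide (t.tl ≠ T.nil)) :=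
  Poly.decide_not (Poly.decide_eq (Poly.tl Poly.id) (NPC.Poly.const _))

theorem poly_okF : Poly okF := by
  unfold okF
  refine Poly.and (Poly.decide_not (Poly.decide_eq Poly.id (NPC.Poly.const _))) ?_
  refine Poly.or (Poly.or ?_ ?_) (Poly.or ?_ ?_)
  · exact Poly.and (poly_hd_eq 0) (Poly.decide_eq (Poly.tl Poly.id) (NPC.Poly.const _))
  · exact Poly.and (Poly.decide_or (poly_hd_eq 1) (poly_hd_eq 2)) (Poly.and poly_tl_ne
      (Poly.and (Poly.isSome (TDec.poly_dec.comp (Poly.hd (Poly.tl Poly.id))))
        (Poly.isSome (TDec.poly_dec.comp (Poly.tl (Poly.tl Poly.id))))))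
  · exact Poly.and (poly_hd_eq 3) poly_tl_ne
  · exact Poly.and (poly_hd_eq 4) (Poly.and poly_tl_ne
      (Poly.isSome (TDec.poly_dec.comp (Poly.hd (Poly.tl Poly.id)))))

theorem poly_chF : Poly chF := by
  unfold chF
  refine Poly.ite (poly_hd_eq 3)
    (Poly.cons (Poly.hd (Poly.tl Poly.id)) (Poly.cons (Poly.tl (Poly.tl Poly.id)) (NPC.Poly.const [])))
    ?_
  exact Poly.ite (poly_hd_eq 4) (Poly.cons (Poly.tl (Poly.tl Poly.id)) (NPC.Poly.const []))
    (NPC.Poly.const [])

theorem sz_chF (t : T) : sz (chF t) ≤ sz t := by
  unfold chF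
  split_ifs with h1 h2
  · have h3 : t.hd ≠ T.nil := by
      rw [h1]
      exact tag_ne (by norm_num)
    have h4 := size_hd_tl h3
    have h5 := size_pair_le t.tl
    simp only [sz_list_cons, sz_list_nil]
    show t.tl.hd.size + (t.tl.tl.size + 1 + 1) + 1 ≤ t.size
    omega
  · have h3 : t.hd ≠ T.nil := by
      rw [h2]
      exact tag_ne (by norm_num)
    have h4 := size_hd_tl h3
    have h5 := T.size_tl_le t.tl
    simp only [sz_list_cons, sz_list_nil]
    show t.tl.tl.size + 1 + 1 ≤ t.size
    omega
  · exact sz_pos t

theorem vt_fm {t : T} : VT okF chF t ↔ ∃ a : Fm, toT a = t := by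
  constructor
  · intro h
    induction h with
    | mk t h1 h2 ih =>
      cases t with
      | nil => simp [okF] at h1
      | node l r =>
        by_cases h0 : l = tag 0
        · subst h0
          simp only [okF, T.hd_node, T.tl_node, tag_inj] at h1
          norm_num at h1
          have h1' : r = T.nil := by simpa using h1.2
          subst h1'
          exact ⟨.bot, rfl⟩
        have hr : r ≠ T.nil := by
          rintro rfl
          simp_all [okF]
        obtain ⟨a, b, rfl⟩ : ∃ a b, r = T.node a b := by
          cases r with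
          | nil => exact absurd rfl hr
          | node a b => exact ⟨a, b, rfl⟩
        by_cases h0 : l = tag 1
        · subst h0
          simp only [okF, T.hd_node, T.tl_node, tag_inj] at h1
          norm_num [Option.isSome_iff_exists] at h1
          obtain ⟨-, -, ⟨s, hs⟩, ⟨s', hs'⟩⟩ := h1
          refine ⟨.eq s s', ?_⟩
          rw [← TDec.toT_dec _ _ hs, ← TDec.toT_dec _ _ hs']
          rfl
        by_cases h0 : l = tag 2
        · subst h0
          simp only [okF, T.hd_node, T.tl_node, tag_inj] at h1
          norm_num [Option.isSome_iff_exists] at h1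
          obtain ⟨-, -, ⟨s, hs⟩, ⟨s', hs'⟩⟩ := h1
          refine ⟨.le s s', ?_⟩
          rw [← TDec.toT_dec _ _ hs, ← TDec.toT_dec _ _ hs']
          rfl
        by_cases h0 : l = tag 3
        · subst h0
          obtain ⟨s, hs⟩ := ih a (by simp [chF])
          obtain ⟨s', hs'⟩ := ih b (by simp [chF])
          exact ⟨.imp s s', by rw [← hs, ← hs']; rfl⟩
        by_cases h0 : l = tag 4
        · subst h0
          simp only [okF, T.hd_node, T.tl_node, tag_inj] at h1
          norm_num [Option.isSome_iff_exists] at h1
          obtain ⟨-, -, ⟨i, hi⟩⟩ := h1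
          obtain ⟨s', hs'⟩ := ih b (by simp [chF, tag_inj])
          refine ⟨.all i s', ?_⟩
          rw [← TDec.toT_dec _ _ hi, ← hs']
          rfl
        simp_all [okF]
  · rintro ⟨a, rfl⟩
    have key : ∀ (n : ℕ) (r : T), chF (T.node (tag n) r) =
        if n = 3 then [r.hd, r.tl] else if n = 4 then [r.tl] else [] := by
      intro n r
      simp only [chF, T.hd_node, T.tl_node, tag_inj]
    induction a with
    | bot =>
      show VT okF chF (T.node (tag 0) T.nil)
      refine VT.mk _ ?_ ?_
      · simp [okF]
      · intro c hc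
        rw [key] at hc
        norm_num at hc
    | eq s s' =>
      show VT okF chF (T.node (tag 1) (T.node (toT s) (toT s')))
      refine VT.mk _ ?_ ?_
      · simp [okF, TDec.dec_toT]
      · intro c hc
        rw [key] at hc
        norm_num at hc
    | le s s' =>
      show VT okF chF (T.node (tag 2) (T.node (toT s) (toT s')))
      refine VT.mk _ ?_ ?_
      · simp [okF, TDec.dec_toT]
      · intro c hc
        rw [key] at hc
        norm_num at hc
    | imp φ ψ ih ih' =>
      show VT okF chF (T.node (tag 3) (T.node (toT φ) (toT ψ)))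
      refine VT.mk _ ?_ ?_
      · simp [okF]
      · intro c hc
        rw [key] at hc
        norm_num at hc
        rcases hc with rfl | rfl
        · exact ih
        · exact ih'
    | all i φ ih =>
      show VT okF chF (T.node (tag 4) (T.node (toT i) (toT φ)))
      refine VT.mk _ ?_ ?_
      · simp [okF, TDec.dec_toT]
      · intro c hc
        rw [key] at hc
        norm_num at hc
        rw [hc]
        exact ih

noncomputable instance : TDec Fm :=
  mkDec (v := validT okF chF) (fun _ => (validT_iff sz_chF).trans vt_fm)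
    (poly_validT sz_chF poly_okF poly_chF)

/-! ### Numbers -/

theorem bits_valB (l : List Bool) : (valB (l ++ [true])).bits = l ++ [true] := by
  induction l with
  | nil =>
    show (1 + 2 * 0 : ℕ).bits = [true]
    norm_num
  | cons b l ih =>
    have h0 : valB (l ++ [true]) ≠ 0 := by
      intro h
      rw [h, Nat.zero_bits] at ih
      simp at ih
    rw [List.cons_append, valB_cons]
    have h1 : (if b then 1 else 0) + 2 * valB (l ++ [true]) = Nat.bit b (valB (l ++ [true])) := by
      cases b <;> simp [Nat.bit] <;> omega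
    rw [h1, Nat.bits_append_bit _ _ (fun h => absurd h h0), ih]

theorem size_pEv (p : List ℕ) (x : ℕ) : (pEv p x).size ≤ sz p + p.length * (x.size + 1) := by
  induction p with
  | nil => simp [pEv]
  | cons c p ih =>
    have h1 : pEv (c :: p) x = c + x * pEv p x := rfl
    have h2 : (c + x * pEv p x).size ≤ c.size + (x.size + (pEv p x).size) + 1 := by
      rw [Nat.size_le]
      have h3 := Nat.lt_size_self c
      have h4 := Nat.lt_size_self x
      have h5 := Nat.lt_size_self (pEv p x)
      have h6 : x * pEv p x < 2 ^ (x.size + (pEv p x).size) := by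
        rw [pow_add]
        exact Nat.mul_lt_mul'' h4 h5
      have h7 : 2 ^ c.size ≤ 2 ^ (c.size + (x.size + (pEv p x).size)) :=
        Nat.pow_le_pow_right (by norm_num) (by omega)
      have h8 : 2 ^ (x.size + (pEv p x).size) ≤ 2 ^ (c.size + (x.size + (pEv p x).size)) :=
        Nat.pow_le_pow_right (by norm_num) (by omega)
      rw [pow_succ]
      omega
    have h9 := size_le_sz c
    rw [h1, sz_list_cons, List.length_cons, Nat.succ_mul]
    omega

theorem poly_pEv : Poly (fun a : List ℕ × ℕ => pEv a.1 a.2) := by
  unfold pEv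
  refine Poly.foldr (l := fun a : List ℕ × ℕ => a.1) (s := fun _ => 0)
    (F := fun a c s => c + a.2 * s) (Poly.fst Poly.id) (NPC.Poly.const 0) ?_
    (Polynomial.C 4 * (Polynomial.X + Polynomial.X * (Polynomial.X + Polynomial.C 1)) +
      Polynomial.C 1) ?_
  · exact Poly.add (Poly.fst (Poly.snd Poly.id))
      (Poly.mul (Poly.snd (Poly.fst Poly.id)) (Poly.snd (Poly.snd Poly.id)))
  · rintro ⟨p, x⟩ k _
    have h1 := size_pEv (p.drop k) x
    have h2 := sz_nat_le (pEv (p.drop k) x)
    have h3 := Poly.sz_drop_le p k
    have h4 := length_lt_sz (p.drop k)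
    have h5 := size_le_sz x
    have h6 : sz (p, x) = sz p + sz x + 1 := sz_pair _ _
    simp only [Polynomial.eval_add, Polynomial.eval_mul, Polynomial.eval_C, Polynomial.eval_X]
    show sz (pEv (p.drop k) x) ≤ _
    have h7 : (p.drop k).length * (x.size + 1) ≤ sz (p, x) * (sz (p, x) + 1) :=
      Nat.mul_le_mul (by omega) (by omega)
    omega

/-! ### The test -/

/-- the candidate for the data of an axiom -/
noncomputable def cand (φ : Fm) : Option W :=
  (TDec.dec (toT φ).tl.hd.tl.hd.tl : Option ℕ).bind fun i => unbits W (i.bits.reverse.tail.reverse)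

theorem cand_ax (μ : Fm) (w : W) : cand (Ax μ w) = some w := by
  have h1 : (toT (Ax μ w)).tl.hd.tl.hd.tl = toT (gn (bits w)) := rfl
  unfold cand
  rw [h1, TDec.dec_toT, Option.bind_some]
  have h2 : (gn (bits w)).bits = bits w ++ [true] := bits_valB _
  rw [h2, List.reverse_append]
  simp only [List.reverse_cons, List.reverse_nil, List.nil_append, List.cons_append, List.tail_cons,
    List.reverse_reverse]
  exact unbits_bits w

theorem poly_cand : Poly cand := by
  unfold cand
  refine Poly.optBind (f := fun (_ : Fm) (i : ℕ) => unbits W (i.bits.reverse.tail.reverse))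
    (TDec.poly_dec.comp (Poly.tl (Poly.hd (Poly.tl (Poly.hd (Poly.tl (Poly.toT' Poly.id))))))) ?_
  exact poly_unbits.comp (Poly.reverse (Poly.tail (Poly.reverse (Poly.natBits (Poly.snd Poly.id)))))

theorem m16 : S_dec := by
  classical
  intro hpax μ C hC
  obtain ⟨-, hpax⟩ := hpax
  obtain ⟨hAx, -, -, -⟩ := hpax μ
  let test : Fm → W → Bool := fun φ w =>
    decide (φ = Ax μ w) &&
      (decide (pEv w.2.2.2.1 (4 * w.2.2.2.2.1.length + 9) ≤ w.2.2.2.2.2.1.length) &&
        C (w.2.2.1, w.2.2.2.2.1, w.2.2.2.2.2.1, w.2.2.2.2.2.2))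
  have htest : Poly (fun a : Fm × W => test a.1 a.2) := by
    have hw : Poly (fun a : Fm × W => a.2) := Poly.snd Poly.id
    have h1 := Poly.snd hw
    have h2 := Poly.snd h1
    have h3 := Poly.snd h2
    have h4 := Poly.snd h3
    have h5 := Poly.snd h4
    refine Poly.and (Poly.decide_eq (Poly.fst Poly.id) (hAx.comp hw)) (Poly.and ?_ ?_)
    · refine Poly.decide_le ?_ (Poly.length (Poly.fst h5))
      refine poly_pEv.comp (Poly.pair (Poly.fst h3) ?_)
      exact Poly.add (Poly.mul (NPC.Poly.const 4) (Poly.length (Poly.fst h4))) (NPC.Poly.const 9)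
    · exact hC.comp (Poly.pair (Poly.fst h2) (Poly.pair (Poly.fst h4) (Poly.pair (Poly.fst h5)
        (Poly.snd h5))))
  have hd : Poly (fun φ : Fm => match cand φ with | none => false | some w => test φ w) :=
    (Poly.optCases (g := fun _ => false) (h := fun φ w => test φ w) poly_cand
      (NPC.Poly.const false) htest).congr fun φ => by cases cand φ <;> rfl
  refine inPP_of hd fun φ => ?_
  constructor
  · rintro ⟨w, h1, h2, rfl⟩
    rw [cand_ax]
    show test (Ax μ w) w = true
    simp only [test, decide_true, Bool.true_and, Bool.and_eq_true, decide_eq_true_eq]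
    exact ⟨h1, h2⟩
  · intro h
    cases hc : cand φ with
    | none =>
      rw [hc] at h
      simp at h
    | some w =>
      rw [hc] at h
      have h' : test φ w = true := h
      simp only [test, Bool.and_eq_true, decide_eq_true_eq] at h'
      exact ⟨w, h'.2.1, h'.2.2, h'.1⟩

end Pool.Agent.J6H73.RF16
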